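import Pool.Agent.N549.AB.Stm2
import Pool.Agent.N364.HG.Conf

/-!
# The partition function of a hard-core gas in a set (project HG of helper549, AB/PAIRG, helper862)
-/

set_option autoImplicit false
set_option linter.all false

namespace Pool.Agent.N862.DC

open MeasureTheory Set Finset
open scoped ENNReal NNReal
open Pool.Agent.N549.HG (A Z Adm)
open Pool.Agent.N364.HG (Wk Wk_meas A_eq)

open scoped Classical in
theorem Wk_zo {Ω : Type} {F : Ω → Ω → ℝ≥0∞} (hzo : ∀ x y, F x y = 0 ∨ F x y = 1) (k : ℕ)
    (x : Fin k → Ω) :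
    Wk F k x = if ∀ i j, i < j → F (x i) (x j) = 1 then 1 else 0 := by
  induction k with
  | zero =>
    rw [if_pos fun i => i.elim0]
    rfl
  | succ k ih =>
    show (∏ j : Fin k, F (x 0) (x j.succ)) * Wk F k (fun j => x j.succ) = _
    rw [ih]
    by_cases h : ∀ i j, i < j → F (x i) (x j) = 1
    · rw [if_pos h, if_pos fun i j hij => h _ _ (Fin.succ_lt_succ_iff.2 hij), mul_one]
      exact Finset.prod_eq_one fun j _ => h 0 j.succ (Fin.succ_pos j)
    · rw [if_neg h]
      by_cases h2 : ∀ i j : Fin k, i < j → F (x i.succ) (x j.succ) = 1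
      · rw [if_pos h2, mul_one]
        have h3 : ∃ j : Fin k, ¬ F (x 0) (x j.succ) = 1 := by
          by_contra hcon
          push Not at hcon
          refine h fun i j hij => ?_
          induction i using Fin.cases with
          | zero =>
            induction j using Fin.cases with
            | zero => exact absurd hij (lt_irrefl _)
            | succ j => exact hcon j
          | succ i =>
            induction j using Fin.cases with
            | zero => exact absurd hij (Fin.not_lt_zero _)
            | succ j => exact h2 i j (Fin.succ_lt_succ_iff.1 hij)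
        obtain ⟨j, hj⟩ := h3
        refine Finset.prod_eq_zero (Finset.mem_univ j) ?_
        exact (hzo _ _).resolve_right hj
      · rw [if_neg h2, mul_zero]

open scoped Classical in
theorem prod_zo {Ω : Type} {G : Ω → ℝ≥0∞} (hzo : ∀ x, G x = 0 ∨ G x = 1) (k : ℕ)
    (x : Fin k → Ω) : ∏ i, G (x i) = if ∀ i, G (x i) = 1 then 1 else 0 := by
  split_ifs with h
  · exact Finset.prod_eq_one fun i _ => h i
  · push Not at h
    obtain ⟨i, hi⟩ := h
    exact Finset.prod_eq_zero (Finset.mem_univ i) ((hzo _).resolve_right hi)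

theorem pairg : Pool.Agent.N549.AB.S_PAIRG := by
  classical
  intro Ω _ μ _ F hF hFzo G hG hGzo c hc
  have hA : ∀ k : ℕ, A μ F k (fun y => ENNReal.ofReal c * G y) =
      ENNReal.ofReal (c ^ k) * (Measure.pi fun _ : Fin k => μ)
        {x | (∀ i j, i < j → F (x i) (x j) = 1) ∧ ∀ i, G (x i) = 1} := by
    intro k
    rw [A_eq hF.meas k _ (hG.const_mul _)]
    have hms : MeasurableSet ({x | (∀ i j, i < j → F (x i) (x j) = 1) ∧ ∀ i, G (x i) = 1} :
        Set (Fin k → Ω)) := by
      have h2 : ({x | (∀ i j, i < j → F (x i) (x j) = 1) ∧ ∀ i, G (x i) = 1} :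
          Set (Fin k → Ω)) = Wk F k ⁻¹' {1} ∩ (fun x : Fin k → Ω => ∏ i, G (x i)) ⁻¹' {1} := by
        ext x
        rw [Set.mem_inter_iff, Set.mem_preimage, Set.mem_preimage, Wk_zo hFzo,
          Set.mem_singleton_iff, Set.mem_singleton_iff, prod_zo hGzo]
        constructor
        · intro h
          exact ⟨if_pos h.1, if_pos h.2⟩
        · intro h
          refine ⟨?_, ?_⟩
          · by_contra hcon
            rw [if_neg hcon] at h
            exact zero_ne_one h.1
          · by_contra hcon
            rw [if_neg hcon] at h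
            exact zero_ne_one h.2
      rw [h2]
      refine (Wk_meas hF.meas k (measurableSet_singleton 1)).inter ?_
      refine (Finset.measurable_prod _ fun i _ => ?_) (measurableSet_singleton 1)
      exact hG.comp (measurable_pi_apply i)
    have h1 : ∀ x : Fin k → Ω, (∏ i, (ENNReal.ofReal c * G (x i))) * Wk F k x =
        ENNReal.ofReal (c ^ k) *
          ({x | (∀ i j, i < j → F (x i) (x j) = 1) ∧ ∀ i, G (x i) = 1} :
            Set (Fin k → Ω)).indicator 1 x := by
      intro x
      rw [Finset.prod_mul_distrib, Finset.prod_const, Finset.card_univ, Fintype.card_fin,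
        prod_zo hGzo, Wk_zo hFzo, ← ENNReal.ofReal_pow hc, Set.indicator_apply]
      by_cases h3 : ∀ i j, i < j → F (x i) (x j) = 1
      · by_cases h4 : ∀ i, G (x i) = 1
        · have h5 : x ∈ ({x | (∀ i j, i < j → F (x i) (x j) = 1) ∧ ∀ i, G (x i) = 1} :
              Set (Fin k → Ω)) := ⟨h3, h4⟩
          rw [if_pos h3, if_pos h4, if_pos h5, mul_one, mul_one, Pi.one_apply, mul_one]
        · have h5 : x ∉ ({x | (∀ i j, i < j → F (x i) (x j) = 1) ∧ ∀ i, G (x i) = 1} :
              Set (Fin k → Ω)) := fun h => h4 h.2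
          rw [if_neg h4, if_neg h5, mul_zero, zero_mul]
      · have h5 : x ∉ ({x | (∀ i j, i < j → F (x i) (x j) = 1) ∧ ∀ i, G (x i) = 1} :
            Set (Fin k → Ω)) := fun h => h3 h.1
        rw [if_neg h3, if_neg h5, mul_zero, mul_zero]
    rw [lintegral_congr h1, lintegral_const_mul _ (measurable_one.indicator hms),
      lintegral_indicator_one hms]
  unfold Z
  rw [ENNReal.tsum_toReal_eq]
  · refine tsum_congr fun k => ?_
    rw [hA k, ENNReal.toReal_div, ENNReal.toReal_mul, ENNReal.toReal_ofReal (pow_nonneg hc k),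
      measureReal_def, ENNReal.toReal_natCast]
    ring
  · intro k
    rw [hA k]
    refine ENNReal.div_ne_top (ENNReal.mul_ne_top ENNReal.ofReal_ne_top (measure_ne_top _ _)) ?_
    exact_mod_cast (Nat.factorial_pos k).ne'

end Pool.Agent.N862.DC
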